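import Pool.Agent.R711.FinFam

/-!
For finite modules `A` and `B` (over possibly different rings) of coprime order the set of
clonoids from `A` to `B` is finite.
-/

set_option autoImplicit false

namespace Pool.Agent.Results.MP_d8c2c9_al.CoprimeFinite

/-- The finitary operations from `A` to `B` of arity at least one. -/
abbrev Op (A B : Type*) : Type _ := Σ n : ℕ+, ((Fin (n : ℕ) → A) → B)

/-- `g` is a term operation of the module `M` over `T`. -/
def IsTermOp (T : Type*) {M : Type*} [Ring T] [AddCommGroup M] [Module T M] {n : ℕ}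
    (g : (Fin n → M) → M) : Prop :=
  ∃ t : Fin n → T, ∀ x, g x = ∑ i, t i • x i

/-- Clonoids from the `R`-module `A` to the `S`-module `B`. -/
structure IsClonoid (R S : Type*) {A B : Type*} [Ring R] [Ring S] [AddCommGroup A] [Module R A]
    [AddCommGroup B] [Module S B] (C : Set (Op A B)) : Prop where
  minor : ∀ (n k : ℕ+) (σ : Fin (n : ℕ) → Fin (k : ℕ)) (f : (Fin (n : ℕ) → A) → B),
    (⟨n, f⟩ : Op A B) ∈ C → (⟨k, fun x => f (fun i => x (σ i))⟩ : Op A B) ∈ C
  source : ∀ (n k : ℕ+) (g : Fin (n : ℕ) → (Fin (k : ℕ) → A) → A), (∀ i, IsTermOp R (g i)) →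
    ∀ f : (Fin (n : ℕ) → A) → B, (⟨n, f⟩ : Op A B) ∈ C →
      (⟨k, fun x => f (fun i => g i x)⟩ : Op A B) ∈ C
  target : ∀ (m k : ℕ+) (h : (Fin (m : ℕ) → B) → B), IsTermOp S h →
    ∀ f : Fin (m : ℕ) → (Fin (k : ℕ) → A) → B, (∀ i, (⟨k, f i⟩ : Op A B) ∈ C) →
      (⟨k, fun x => h (fun i => f i x)⟩ : Op A B) ∈ C

open Pool.Agent.R711.Fourier Pool.Agent.R711.Core

section

variable {R S A B : Type*} [Ring R] [Ring S] [AddCommGroup A] [Module R A]
    [AddCommGroup B] [Module S B]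

/-- The pair of `f` and `g` as a map on `Fin 2`. -/
def pick {Y : Type*} (f g : Y) (i : Fin 2) : Y := if i = 0 then f else g

theorem termOp_fsum {l k : ℕ} (φ : Fin l → Fin k) (i : Fin k) :
    IsTermOp R (fun a : Fin l → A => fsum φ a i) := by
  refine ⟨fun j => if φ j = i then 1 else 0, fun x => ?_⟩
  unfold fsum
  refine Finset.sum_congr rfl fun j _ => ?_
  by_cases h : φ j = i <;> simp [h]

theorem zero_mem {C : Set (Op A B)} (hC : IsClonoid R S C) (hne : C.Nonempty) (k : ℕ+) :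
    (⟨k, 0⟩ : Op A B) ∈ C := by
  obtain ⟨⟨m, f⟩, hf⟩ := hne
  have h1 := hC.minor m k (fun _ => ⟨0, k.2⟩) f hf
  have h2 := hC.target 1 k (fun _ => 0) ⟨fun _ => 0, fun x => by simp⟩ (fun _ => _) (fun _ => h1)
  exact h2

theorem add_mem {C : Set (Op A B)} (hC : IsClonoid R S C) (k : ℕ+) (f g : (Fin (k : ℕ) → A) → B)
    (hf : (⟨k, f⟩ : Op A B) ∈ C) (hg : (⟨k, g⟩ : Op A B) ∈ C) : (⟨k, f + g⟩ : Op A B) ∈ C := by
  have h2 := hC.target 2 k (fun x => x (0 : Fin 2) + x (1 : Fin 2))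
    ⟨fun _ => 1, fun x => by
      simp only [one_smul]
      exact (Fin.sum_univ_two x).symm⟩
    (pick f g) (by
      intro i
      unfold pick
      split_ifs
      · exact hf
      · exact hg)
  exact h2

theorem neg_mem {C : Set (Op A B)} (hC : IsClonoid R S C) (k : ℕ+) (f : (Fin (k : ℕ) → A) → B)
    (hf : (⟨k, f⟩ : Op A B) ∈ C) : (⟨k, -f⟩ : Op A B) ∈ C := by
  have h2 := hC.target 1 k (fun x => - x (0 : Fin 1))
    ⟨fun _ => -1, fun x => by
      simp only [neg_smul, one_smul]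
      exact (Fin.sum_univ_one (fun i => - x i)).symm⟩
    (fun _ => f) (fun _ => hf)
  exact h2

/-- The family of groups attached to a nonempty clonoid. -/
def fam {C : Set (Op A B)} (hC : IsClonoid R S C) (hne : C.Nonempty) (k : ℕ) :
    AddSubgroup ((Fin k → A) → B) where
  carrier := {f | ∀ hk : 0 < k, (⟨⟨k, hk⟩, f⟩ : Op A B) ∈ C}
  zero_mem' := fun hk => zero_mem hC hne ⟨k, hk⟩
  add_mem' := fun {f g} hf hg hk => add_mem hC ⟨k, hk⟩ f g (hf hk) (hg hk)
  neg_mem' := fun {f} hf hk => neg_mem hC ⟨k, hk⟩ f (hf hk)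

theorem fam_mem {C : Set (Op A B)} (hC : IsClonoid R S C) (hne : C.Nonempty) :
    fam hC hne ∈ Fam A B := by
  intro l k φ hφ
  constructor
  · intro f hf hl
    have hk : 0 < k := (φ ⟨0, hl⟩).pos
    exact hC.source ⟨k, hk⟩ ⟨l, hl⟩ (fun i a => fsum φ a i) (fun i => termOp_fsum φ i) f (hf hk)
  · intro f hf hk
    obtain ⟨j, _⟩ := hφ ⟨0, hk⟩
    exact hC.minor ⟨l, j.pos⟩ ⟨k, hk⟩ φ f (hf j.pos)

end

/-- For finite modules of coprime order there are only finitely many clonoids. -/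
theorem result (R S A B : Type*) [Ring R] [Ring S] [AddCommGroup A] [Module R A] [Finite A]
    [AddCommGroup B] [Module S B] [Finite B]
    (hco : Nat.Coprime (Nat.card A) (Nat.card B)) :
    {C : Set (Op A B) | IsClonoid R S C}.Finite := by
  classical
  have hfin := fam_finite hco
  have h1 : {C : Set (Op A B) | IsClonoid R S C ∧ C.Nonempty}.Finite := by
    refine Set.Finite.of_injOn (t := Set.univ)
      (f := fun C : Set (Op A B) =>
        (if h : IsClonoid R S C ∧ C.Nonempty then some ⟨fam h.1 h.2, fam_mem h.1 h.2⟩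
          else none : Option (Fam A B))) (fun _ _ => Set.mem_univ _)
      ?_ Set.finite_univ
    intro C hC D hD h
    have hC' : IsClonoid R S C ∧ C.Nonempty := hC
    have hD' : IsClonoid R S D ∧ D.Nonempty := hD
    simp only at h
    rw [dif_pos hC', dif_pos hD'] at h
    ext ⟨k, f⟩
    have h2 : fam hC.1 hC.2 (k : ℕ) = fam hD.1 hD.2 (k : ℕ) := by
      have h3 := congrArg Subtype.val (Option.some_injective _ h)
      exact congrFun h3 k
    have h4 : f ∈ fam hC.1 hC.2 (k : ℕ) ↔ f ∈ fam hD.1 hD.2 (k : ℕ) := by rw [h2]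
    exact ⟨fun hf => h4.1 (fun _ => hf) k.2, fun hf => h4.2 (fun _ => hf) k.2⟩
  refine (h1.union (Set.finite_singleton ∅)).subset ?_
  intro C hC
  rcases C.eq_empty_or_nonempty with h | h
  · right
    exact h
  · left
    exact ⟨hC, h⟩

end Pool.Agent.Results.MP_d8c2c9_al.CoprimeFinite
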